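import Mathlib

open MeasureTheory Filter Topology

namespace Q41.EE

/-- The circle `ℝ / 2πℤ`. -/
abbrev Circ : Type := AddCircle (2 * Real.pi)

/-- The two-dimensional torus `𝕋² = (ℝ / 2πℤ)²`. -/
abbrev Torus : Type := Circ × Circ

/-- The universal covering map `ℝ² → 𝕋²`. -/
noncomputable def cover (p : ℝ × ℝ) : Torus := ((p.1 : Circ), (p.2 : Circ))

/-- A `C^∞` diffeomorphism of the torus `𝕋²`: a bijection `f` such that `f` and `f⁻¹` are
covered by `C^∞` self-maps of the plane. -/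
structure TorusDiffeo where
  /-- the map `f` -/
  toFun : Torus → Torus
  /-- its inverse -/
  invFun : Torus → Torus
  left_inv : Function.LeftInverse invFun toFun
  right_inv : Function.RightInverse invFun toFun
  /-- a lift of `f` to the plane -/
  lift : ℝ × ℝ → ℝ × ℝ
  /-- a lift of `f⁻¹` to the plane -/
  invLift : ℝ × ℝ → ℝ × ℝ
  lift_smooth : ContDiff ℝ (⊤ : ℕ∞) lift
  invLift_smooth : ContDiff ℝ (⊤ : ℕ∞) invLift
  lift_spec : ∀ p, cover (lift p) = toFun (cover p)
  invLift_spec : ∀ p, cover (invLift p) = invFun (cover p)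

/-- The Shannon entropy (with respect to `ρ`) of the join `ξ ∨ f⁻¹ξ ∨ ⋯ ∨ f^{-(n-1)}ξ` of a
partition `ξ` into `k` labelled pieces. -/
noncomputable def joinEntropy (f : Torus → Torus) (ρ : Measure Torus) {k : ℕ}
    (ξ : Torus → Fin k) (n : ℕ) : ℝ :=
  ∑ w : Fin n → Fin k, Real.negMulLog (ρ.real {x | ∀ i : Fin n, ξ (f^[(i : ℕ)] x) = w i})

/-- The Kolmogorov–Sinai entropy `h(ρ)` of `f` with respect to `ρ`: the supremum over all finite
measurable partitions `ξ` of the limit of `1/n` times the entropy of the `n`-fold join. -/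
noncomputable def ksEntropy (f : Torus → Torus) (ρ : Measure Torus) : ENNReal :=
  ⨆ (k : ℕ) (ξ : Torus → Fin k) (_ : Measurable ξ),
    limsup (fun n : ℕ => ENNReal.ofReal (joinEntropy f ρ ξ n / n)) atTop

/-- The norm of the map `ΛA = 1 ⊕ A ⊕ det A` induced by `A : ℝ² → ℝ²` on the exterior algebra
`ΛR² = ℝ ⊕ ℝ² ⊕ ℝ`. -/
noncomputable def extNorm (A : ℝ × ℝ →L[ℝ] ℝ × ℝ) : ℝ := max 1 (max ‖A‖ |A.det|)

/-- The sum of the positive characteristic exponents
`χ₊(x) = lim 1/n log ‖Λ T_x fⁿ‖`; here `T_x fⁿ` is the derivative of the `n`-th iterate of the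
lift at a point above `x`. -/
noncomputable def chiPlus (D : TorusDiffeo) (x : Torus) : ENNReal :=
  limsup (fun n : ℕ => ENNReal.ofReal
    (Real.log (extNorm (fderiv ℝ (D.lift^[n]) (Quotient.out x.1, Quotient.out x.2))) / n)) atTop

end Q41.EE
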