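import Pool.Agent.Q41.EE.Map

open MeasureTheory Filter Topology

namespace Q41.EE

lemma sin_near (u : ℝ) (hu : |u| ≤ 1/10) : |Real.sin u - u| ≤ |u|^3 / 5 := by
  have h := Real.sin_bound (x := u) (by linarith)
  have h2 : Real.sin u - u = (Real.sin u - (u - u^3/6)) - u^3/6 := by ring
  rw [h2]
  refine (abs_sub _ _).trans ?_
  rw [abs_div, abs_pow, abs_of_pos (by norm_num : (0:ℝ) < 6)]
  have h3 : |u|^5 = |u|^3 * |u|^2 := by ring
  have h4 : |u|^2 ≤ 1/100 := by
    have := abs_nonneg u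
    nlinarith
  have h5 : |u|^5 ≤ |u|^3 * (1/100) := by
    rw [h3]; exact mul_le_mul_of_nonneg_left h4 (by positivity)
  have h6 : 0 ≤ |u|^3 := by positivity
  linarith

lemma cos_near (u : ℝ) (hu : |u| ≤ 1/10) : Real.cos u ≤ 1 - u^2/2 + u^4 * (5/96) := by
  have h := Real.cos_bound (x := u) (by linarith)
  have := (abs_le.1 h).2
  have h4 : |u|^4 = u^4 := by rw [← abs_pow]; exact abs_of_nonneg (by positivity)
  rw [h4] at this
  linarith

/-- The first factor: `sin (x + a sin x) = sin x * A`. -/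
lemma factor (s c a : ℝ) (hsc : s^2 + c^2 = 1) (hs : s ≠ 0) (ha : |a| ≤ 1/10) :
    ∃ A : ℝ, s * Real.cos (a * s) + c * Real.sin (a * s) = s * A ∧ 1/2 < A ∧
      A ≤ 1 + a * c - a^2 * (s^2/2 - 1/40) := by
  refine ⟨Real.cos (a * s) + c * (Real.sin (a * s) / s), by field_simp, ?_, ?_⟩
  all_goals
    have hs1 : |s| ≤ 1 := by
      rw [← sq_le_one_iff_abs_le_one]; nlinarith [sq_nonneg c]
    have hc1 : |c| ≤ 1 := by
      rw [← sq_le_one_iff_abs_le_one]; nlinarith [sq_nonneg s]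
    have hu : |a * s| ≤ 1/10 := by
      rw [abs_mul]
      have := mul_le_mul ha hs1 (abs_nonneg _) (by norm_num)
      linarith
    have e1 : c * (Real.sin (a * s) / s) = a * c + c * ((Real.sin (a * s) - a * s) / s) := by
      field_simp
      ring
    have e2 : |c * ((Real.sin (a * s) - a * s) / s)| ≤ a^2 / 50 := by
      rw [abs_mul, abs_div]
      have h1 := sin_near _ hu
      have hspos : 0 < |s| := abs_pos.2 hs
      have h2 : |Real.sin (a * s) - a * s| / |s| ≤ a^2 / 50 := by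
        rw [div_le_iff₀ hspos]
        refine h1.trans ?_
        rw [abs_mul]
        have h3 : (|a| * |s|)^3 / 5 = |a|^2 * |s| * (|a| * |s|^2) / 5 := by ring
        rw [h3, sq_abs]
        have h4 : |a| * |s|^2 ≤ 1/10 := by
          have : |s|^2 ≤ 1 := by nlinarith [abs_nonneg s]
          have := mul_le_mul ha this (by positivity) (by norm_num)
          linarith
        have h5 : a^2 * |s| * (|a| * |s|^2) ≤ a^2 * |s| * (1/10) :=
          mul_le_mul_of_nonneg_left h4 (by positivity)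
        linarith
      have := mul_le_mul hc1 h2 (by positivity) (by norm_num)
      linarith
    have e3 := abs_le.1 e2
    rw [e1]
  · have h1 := Real.one_sub_sq_div_two_le_cos (x := a * s)
    have h2 : (a * s)^2 ≤ 1/100 := by
      rw [← sq_abs]; nlinarith [abs_nonneg (a*s)]
    have h3 : |a * c| ≤ 1/10 := by
      rw [abs_mul]
      have := mul_le_mul ha hc1 (abs_nonneg _) (by norm_num)
      linarith
    have h4 := abs_le.1 h3
    have h5 : a^2 ≤ 1/100 := by
      rw [← sq_abs]; nlinarith [abs_nonneg a]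
    linarith [h4.1, e3.1]
  · have h1 := cos_near _ hu
    have h2 : (a * s)^4 * (5/96) ≤ a^2 / 200 := by
      have h3 : (a * s)^4 = a^2 * (s^2 * (a * s)^2) := by ring
      have h4 : (a * s)^2 ≤ 1/100 := by
        rw [← sq_abs]; nlinarith [abs_nonneg (a*s)]
      have h5 : s^2 ≤ 1 := by nlinarith [sq_nonneg c]
      have h6 : s^2 * (a*s)^2 ≤ 1 * (1/100) := mul_le_mul h5 h4 (by positivity) (by norm_num)
      have h7 : a^2 * (s^2 * (a * s)^2) ≤ a^2 * (1/100) :=
        mul_le_mul_of_nonneg_left (by linarith) (by positivity)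
      have h8 : 0 ≤ a^2 := by positivity
      rw [h3]; linarith
    nlinarith [e3.2]

lemma algebra_ineq (c d s t A B : ℝ) (hc : s^2 + c^2 = 1) (hd : t^2 + d^2 = 1)
    (hA0 : 0 < A) (hB0 : 0 < B)
    (hA : A ≤ 1 + (d/10) * c - (d/10)^2 * (s^2/2 - 1/40))
    (hB : B ≤ 1 - (c/10) * d - (c/10)^2 * (t^2/2 - 1/40)) (h : c ≠ 0 ∨ d ≠ 0) : A * B < 1 := by
  have hpos : 0 < c^2 + d^2 := by
    rcases h with h | h
    · have := pow_pos (abs_pos.2 h) 2
      rw [sq_abs] at this
      nlinarith [sq_nonneg d]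
    · have := pow_pos (abs_pos.2 h) 2
      rw [sq_abs] at this
      nlinarith [sq_nonneg c]
  have h1 : A * B ≤ (1 + (d/10) * c - (d/10)^2 * (s^2/2 - 1/40)) *
      (1 - (c/10) * d - (c/10)^2 * (t^2/2 - 1/40)) :=
    mul_le_mul hA hB hB0.le (hA0.le.trans hA)
  refine h1.trans_lt ?_
  have hs2 : s^2 = 1 - c^2 := by linarith
  have ht2 : t^2 = 1 - d^2 := by linarith
  have hcd : |c * d| ≤ 1 := by
    have h1 : |c| ≤ 1 := by rw [← sq_le_one_iff_abs_le_one]; nlinarith [sq_nonneg s]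
    have h2 : |d| ≤ 1 := by rw [← sq_le_one_iff_abs_le_one]; nlinarith [sq_nonneg t]
    rw [abs_mul]
    have := mul_le_mul h1 h2 (abs_nonneg _) zero_le_one
    linarith
  obtain ⟨hp1, hp2⟩ := abs_le.1 hcd
  have hc0 : 0 ≤ c^2 := by positivity
  have hd0 : 0 ≤ d^2 := by positivity
  have hs0 : 0 ≤ s^2 := by positivity
  have ht0 : 0 ≤ t^2 := by positivity
  have hcle : c^2 ≤ 1 := by linarith
  have hdle : d^2 ≤ 1 := by linarith
  -- the pieces
  have q1 : d^2 * s^2 * (1 - c*d/10) ≥ d^2 * s^2 * (9/10) :=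
    mul_le_mul_of_nonneg_left (by linarith) (by positivity)
  have q2 : c^2 * t^2 * (1 + c*d/10) ≥ c^2 * t^2 * (9/10) :=
    mul_le_mul_of_nonneg_left (by linarith) (by positivity)
  have q3 : d^2 * (1 - c*d/10) ≤ d^2 * (11/10) :=
    mul_le_mul_of_nonneg_left (by linarith) (by positivity)
  have q4 : c^2 * (1 + c*d/10) ≤ c^2 * (11/10) :=
    mul_le_mul_of_nonneg_left (by linarith) (by positivity)
  have q5 : c^2 * d^2 * ((s^2/2 - 1/40) * (t^2/2 - 1/40)) ≤ c^2 * d^2 * (1/4) := by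
    apply mul_le_mul_of_nonneg_left _ (by positivity)
    have a1 : |s^2/2 - 1/40| ≤ 1/2 := by rw [abs_le]; constructor <;> linarith
    have a2 : |t^2/2 - 1/40| ≤ 1/2 := by rw [abs_le]; constructor <;> linarith
    have := mul_le_mul a1 a2 (abs_nonneg _) (by norm_num)
    rw [← abs_mul] at this
    have := (abs_le.1 this).2
    linarith
  have key : (1 + (d/10) * c - (d/10)^2 * (s^2/2 - 1/40)) *
      (1 - (c/10) * d - (c/10)^2 * (t^2/2 - 1/40)) = 1 - (1/100) * (c^2 * d^2 +
        (d^2 * s^2 * (1 - c*d/10))/2 - (d^2 * (1 - c*d/10))/40 + (c^2 * t^2 * (1 + c*d/10))/2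
        - (c^2 * (1 + c*d/10))/40
        - (c^2 * d^2 * ((s^2/2 - 1/40) * (t^2/2 - 1/40)))/100) := by ring
  rw [key]
  have e1 : d^2 * s^2 = d^2 - c^2 * d^2 := by rw [hs2]; ring
  have e2 : c^2 * t^2 = c^2 - c^2 * d^2 := by rw [ht2]; ring
  have hcd0 : 0 ≤ c^2 * d^2 := by positivity
  rw [e1] at q1
  rw [e2] at q2
  rw [e1, e2]
  linarith

lemma sq_add_one (a : ℝ) : Real.sin a ^ 2 + Real.cos a ^ 2 = 1 := Real.sin_sq_add_cos_sq a

/-- the new value of `sin x` -/
lemma sin_new_x (x y : ℝ) (h : Real.sin x ≠ 0) : ∃ A : ℝ,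
    Real.sin (x + Real.sin x * Real.cos y / 10) = Real.sin x * A ∧ 1/2 < A ∧
      A ≤ 1 + (Real.cos y / 10) * Real.cos x - (Real.cos y / 10)^2 * (Real.sin x ^2/2 - 1/40) := by
  have ha : |Real.cos y / 10| ≤ 1/10 := by
    rw [abs_div, abs_of_pos (by norm_num : (0:ℝ) < 10)]
    have := Real.abs_cos_le_one y
    linarith
  obtain ⟨A, h1, h2, h3⟩ := factor (Real.sin x) (Real.cos x) (Real.cos y / 10) (sq_add_one x) h ha
  refine ⟨A, ?_, h2, h3⟩
  rw [← h1, Real.sin_add]
  have : Real.sin x * Real.cos y / 10 = Real.cos y / 10 * Real.sin x := by ring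
  rw [this]

lemma sin_new_y (x y : ℝ) (h : Real.sin y ≠ 0) : ∃ B : ℝ,
    Real.sin (y - Real.cos x * Real.sin y / 10) = Real.sin y * B ∧ 1/2 < B ∧
      B ≤ 1 - (Real.cos x / 10) * Real.cos y - (Real.cos x / 10)^2 * (Real.sin y ^2/2 - 1/40) := by
  have ha : |-(Real.cos x / 10)| ≤ 1/10 := by
    rw [abs_neg, abs_div, abs_of_pos (by norm_num : (0:ℝ) < 10)]
    have := Real.abs_cos_le_one x
    linarith
  obtain ⟨A, h1, h2, h3⟩ := factor (Real.sin y) (Real.cos y) (-(Real.cos x / 10)) (sq_add_one y) h ha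
  refine ⟨A, ?_, h2, ?_⟩
  · rw [← h1, sub_eq_add_neg, Real.sin_add]
    have : -(Real.cos x * Real.sin y / 10) = -(Real.cos x / 10) * Real.sin y := by ring
    rw [this]
  · rw [neg_sq] at h3
    linarith

lemma H_decr (x y : ℝ) : |Real.sin (x + Real.sin x * Real.cos y / 10) *
    Real.sin (y - Real.cos x * Real.sin y / 10)| ≤ |Real.sin x * Real.sin y| ∧
    (|Real.sin (x + Real.sin x * Real.cos y / 10) *
    Real.sin (y - Real.cos x * Real.sin y / 10)| = |Real.sin x * Real.sin y| →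
    Real.sin x = 0 ∨ Real.sin y = 0 ∨ (Real.cos x = 0 ∧ Real.cos y = 0)) := by
  by_cases hx : Real.sin x = 0
  · refine ⟨by simp [hx], fun _ => Or.inl hx⟩
  by_cases hy : Real.sin y = 0
  · refine ⟨by simp [hy], fun _ => Or.inr (Or.inl hy)⟩
  obtain ⟨A, hA1, hA2, hA3⟩ := sin_new_x x y hx
  obtain ⟨B, hB1, hB2, hB3⟩ := sin_new_y x y hy
  rw [hA1, hB1]
  have hpos : 0 < |Real.sin x * Real.sin y| := abs_pos.2 (mul_ne_zero hx hy)
  have hAB0 : 0 < A * B := mul_pos (by linarith) (by linarith)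
  have e : |Real.sin x * A * (Real.sin y * B)| = |Real.sin x * Real.sin y| * (A * B) := by
    rw [show Real.sin x * A * (Real.sin y * B) = (Real.sin x * Real.sin y) * (A * B) by ring, abs_mul,
      abs_of_pos hAB0]
  rw [e]
  by_cases hc : Real.cos x ≠ 0 ∨ Real.cos y ≠ 0
  · have hlt := algebra_ineq (Real.cos x) (Real.cos y) (Real.sin x) (Real.sin y) A B
      (sq_add_one x) (sq_add_one y) (by linarith) (by linarith) hA3 hB3 hc
    have hlt2 : |Real.sin x * Real.sin y| * (A * B) < |Real.sin x * Real.sin y| * 1 :=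
      mul_lt_mul_of_pos_left hlt hpos
    rw [mul_one] at hlt2
    exact ⟨hlt2.le, fun h => absurd h hlt2.ne⟩
  · push Not at hc
    obtain ⟨hc1, hc2⟩ := hc
    refine ⟨?_, fun _ => Or.inr (Or.inr ⟨hc1, hc2⟩)⟩
    rw [← e, ← hA1, ← hB1, hc1, hc2]
    simp

/-- on the vertical grid lines -/
lemma vert (x y : ℝ) (hx : Real.sin x = 0) :
    Real.cos x * Real.cos y ≤ Real.cos x * Real.cos (y - Real.cos x * Real.sin y / 10) ∧
    (Real.cos x * Real.cos (y - Real.cos x * Real.sin y / 10) = Real.cos x * Real.cos y →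
      Real.sin y = 0) := by
  have hc : Real.cos x = 1 ∨ Real.cos x = -1 := Real.sin_eq_zero_iff_cos_eq.1 hx
  set t := Real.sin y with ht
  have hd1 := Real.abs_cos_le_one y
  have ht1 := Real.abs_sin_le_one y
  rw [← ht] at ht1
  have key : Real.cos x * Real.cos (y - Real.cos x * t / 10) =
      Real.cos x * Real.cos y * Real.cos (t / 10) + t * Real.sin (t / 10) := by
    rw [Real.cos_sub, ← ht]
    rcases hc with h | h <;> rw [h]
    · ring_nf
    · have : -1 * t / 10 = -(t / 10) := by ring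
      rw [this, Real.cos_neg, Real.sin_neg]
      ring
  rw [key]
  have hu : |t / 10| ≤ 1/10 := by
    rw [abs_div, abs_of_pos (by norm_num : (0:ℝ) < 10)]; linarith
  have h1 := sin_near _ hu
  have h2 : |t * (Real.sin (t/10) - t/10)| ≤ t^2 / 1000 := by
    rw [abs_mul]
    have h3 : |t| * |Real.sin (t/10) - t/10| ≤ |t| * (|t/10|^3 / 5) :=
      mul_le_mul_of_nonneg_left h1 (abs_nonneg _)
    have h4 : |t| * (|t/10|^3/5) = |t|^2 * |t|^2 / 5000 := by
      rw [abs_div, abs_of_pos (by norm_num : (0:ℝ) < 10)]; ring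
    have h5 : |t|^2 ≤ 1 := by nlinarith [abs_nonneg t]
    have h6 : |t|^2 * |t|^2 ≤ |t|^2 * 1 := mul_le_mul_of_nonneg_left h5 (by positivity)
    rw [sq_abs] at h4 h6
    nlinarith [sq_nonneg t]
  have h3 := (abs_le.1 h2).1
  have h4 := Real.one_sub_sq_div_two_le_cos (x := t / 10)
  have h5 : |Real.cos x * Real.cos y * (1 - Real.cos (t/10))| ≤ t^2 / 200 := by
    have h6 : |Real.cos x * Real.cos y| ≤ 1 := by
      rw [abs_mul]
      have := mul_le_mul (Real.abs_cos_le_one x) hd1 (abs_nonneg _) zero_le_one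
      linarith
    have h7 : 0 ≤ 1 - Real.cos (t/10) := by linarith [Real.cos_le_one (t/10)]
    rw [abs_mul, abs_of_nonneg h7]
    have h8 : 1 - Real.cos (t/10) ≤ t^2/200 := by nlinarith
    have := mul_le_mul h6 h8 h7 zero_le_one
    linarith
  have h6 := (abs_le.1 h5).2
  have h7 : Real.cos x * Real.cos y + t^2/20 ≤
      Real.cos x * Real.cos y * Real.cos (t / 10) + t * Real.sin (t / 10) := by
    have e1 : t * (Real.sin (t/10) - t/10) = t * Real.sin (t/10) - t^2/10 := by ring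
    rw [e1] at h3
    nlinarith [sq_nonneg t]
  refine ⟨by nlinarith [sq_nonneg t], fun h => ?_⟩
  have : t^2 ≤ 0 := by linarith
  exact pow_eq_zero_iff (two_ne_zero) |>.1 (le_antisymm this (sq_nonneg t))

/-- on the horizontal grid lines -/
lemma horiz (x y : ℝ) (hy : Real.sin y = 0) :
    Real.cos (x + Real.sin x * Real.cos y / 10) * Real.cos y ≤ Real.cos x * Real.cos y ∧
    (Real.cos (x + Real.sin x * Real.cos y / 10) * Real.cos y = Real.cos x * Real.cos y →
      Real.sin x = 0) := by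
  have h := vert (y + Real.pi) x (by rw [Real.sin_add_pi, hy, neg_zero])
  have e : x - Real.cos (y + Real.pi) * Real.sin x / 10 = x + Real.sin x * Real.cos y / 10 := by
    rw [Real.cos_add_pi]; ring
  rw [e, Real.cos_add_pi] at h
  refine ⟨by linarith [h.1], fun h' => h.2 ?_⟩
  linarith

end Q41.EE
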