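import Pool.Agent.Q41.EE.Defs

open MeasureTheory Filter Topology

namespace Q41.EE

/-- The explicit map of the plane. -/
noncomputable def F (p : ℝ × ℝ) : ℝ × ℝ :=
  (p.1 + Real.sin p.1 * Real.cos p.2 / 10, p.2 - Real.cos p.1 * Real.sin p.2 / 10)

/-- sine on the circle -/
noncomputable def sC (x : Circ) : ℝ := Real.sin_periodic.lift x
/-- cosine on the circle -/
noncomputable def cC (x : Circ) : ℝ := Real.cos_periodic.lift x

@[simp] lemma sC_coe (x : ℝ) : sC (x : Circ) = Real.sin x := Function.Periodic.lift_coe _ _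
@[simp] lemma cC_coe (x : ℝ) : cC (x : Circ) = Real.cos x := Function.Periodic.lift_coe _ _

lemma sC_cont : Continuous sC := by
  apply continuous_coinduced_dom.2
  exact Real.continuous_sin

lemma cC_cont : Continuous cC := by
  apply continuous_coinduced_dom.2
  exact Real.continuous_cos

/-- The explicit map of the torus. -/
noncomputable def f (x : Torus) : Torus :=
  (x.1 + ((sC x.1 * cC x.2 / 10 : ℝ) : Circ), x.2 - ((cC x.1 * sC x.2 / 10 : ℝ) : Circ))

lemma cover_F (p : ℝ × ℝ) : cover (F p) = f (cover p) := by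
  simp [cover, F, f]

lemma f_cont : Continuous f := by
  have h : Continuous (fun r : ℝ => (r : Circ)) := AddCircle.continuous_mk' _
  have h1 : Continuous (fun x : Torus => ((sC x.1 * cC x.2 / 10 : ℝ) : Circ)) :=
    h.comp (((sC_cont.comp continuous_fst).mul (cC_cont.comp continuous_snd)).div_const _)
  have h2 : Continuous (fun x : Torus => ((cC x.1 * sC x.2 / 10 : ℝ) : Circ)) :=
    h.comp (((cC_cont.comp continuous_fst).mul (sC_cont.comp continuous_snd)).div_const _)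
  exact (continuous_fst.add h1).prodMk (continuous_snd.sub h2)

lemma cover_surj (x : Torus) : ∃ p, cover p = x := by
  obtain ⟨a, ha⟩ := QuotientAddGroup.mk_surjective x.1
  obtain ⟨b, hb⟩ := QuotientAddGroup.mk_surjective x.2
  exact ⟨(a, b), Prod.ext ha hb⟩

lemma circ_eq (a b : ℝ) (h : (a : Circ) = (b : Circ)) : ∃ n : ℤ, b = a + n * (2 * Real.pi) := by
  have h' : ((b - a : ℝ) : Circ) = 0 := by
    rw [AddCircle.coe_sub, h, sub_self]
  rw [AddCircle.coe_eq_zero_iff] at h'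
  obtain ⟨n, hn⟩ := h'
  refine ⟨n, ?_⟩
  rw [zsmul_eq_mul] at hn
  linarith

lemma F_shift (p : ℝ × ℝ) (m n : ℤ) :
    F (p.1 + m * (2 * Real.pi), p.2 + n * (2 * Real.pi)) =
      ((F p).1 + m * (2 * Real.pi), (F p).2 + n * (2 * Real.pi)) := by
  simp only [F, Real.sin_add_int_mul_two_pi, Real.cos_add_int_mul_two_pi]
  ext <;> simp <;> ring

lemma abs_sin_sub_le (a b : ℝ) : |Real.sin a - Real.sin b| ≤ |a - b| := by
  have := Real.lipschitzWith_sin.dist_le_mul a b
  simpa [Real.dist_eq] using this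

lemma abs_cos_sub_le (a b : ℝ) : |Real.cos a - Real.cos b| ≤ |a - b| := by
  have := Real.lipschitzWith_cos.dist_le_mul a b
  simpa [Real.dist_eq] using this

lemma sc_lip (a b c d : ℝ) : |Real.sin a * Real.cos b - Real.sin c * Real.cos d| ≤ |a - c| + |b - d| := by
  have h : Real.sin a * Real.cos b - Real.sin c * Real.cos d
      = (Real.sin a - Real.sin c) * Real.cos b + Real.sin c * (Real.cos b - Real.cos d) := by ring
  rw [h]
  refine (abs_add_le _ _).trans ?_
  rw [abs_mul, abs_mul]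
  have h1 := abs_sin_sub_le a c
  have h2 := abs_cos_sub_le b d
  have h3 := Real.abs_cos_le_one b
  have h4 := Real.abs_sin_le_one c
  have h5 : |Real.sin a - Real.sin c| * |Real.cos b| ≤ |a - c| * 1 :=
    mul_le_mul h1 h3 (abs_nonneg _) (abs_nonneg _)
  have h6 : |Real.sin c| * |Real.cos b - Real.cos d| ≤ 1 * |b - d| :=
    mul_le_mul h4 h2 (abs_nonneg _) zero_le_one
  linarith

lemma lip (p q : ℝ × ℝ) : ‖F p - F q - (p - q)‖ ≤ (1/5) * ‖p - q‖ := by
  have h1 : |p.1 - q.1| ≤ ‖p - q‖ := by simpa using norm_fst_le (p - q)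
  have h2 : |p.2 - q.2| ≤ ‖p - q‖ := by simpa using norm_snd_le (p - q)
  have e1 : (F p - F q - (p - q)).1 = (Real.sin p.1 * Real.cos p.2 - Real.sin q.1 * Real.cos q.2) / 10 := by
    simp [F]; ring
  have e2 : (F p - F q - (p - q)).2 = -((Real.sin p.2 * Real.cos p.1 - Real.sin q.2 * Real.cos q.1) / 10) := by
    simp [F]; ring
  rw [Prod.norm_def, e1, e2]
  apply max_le
  · rw [Real.norm_eq_abs, abs_div, abs_of_pos (by norm_num : (0:ℝ) < 10)]
    have := sc_lip p.1 p.2 q.1 q.2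
    linarith
  · rw [Real.norm_eq_abs, abs_neg, abs_div, abs_of_pos (by norm_num : (0:ℝ) < 10)]
    have := sc_lip p.2 p.1 q.2 q.1
    linarith

lemma approx : ApproximatesLinearOn F
    ((ContinuousLinearEquiv.refl ℝ (ℝ × ℝ)) : (ℝ × ℝ) →L[ℝ] (ℝ × ℝ)) Set.univ (1/5) := by
  intro p _ q _
  have := lip p q
  simpa using this

/-- `F` as a homeomorphism -/
noncomputable def Fh : (ℝ × ℝ) ≃ₜ (ℝ × ℝ) :=
  approx.toHomeomorph F (Or.inr (by
    have : ‖(((ContinuousLinearEquiv.refl ℝ (ℝ × ℝ)).symm : (ℝ × ℝ) ≃L[ℝ] (ℝ × ℝ)) :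
      (ℝ × ℝ) →L[ℝ] (ℝ × ℝ))‖₊ = 1 := by
      have : (((ContinuousLinearEquiv.refl ℝ (ℝ × ℝ)).symm : (ℝ × ℝ) ≃L[ℝ] (ℝ × ℝ)) :
        (ℝ × ℝ) →L[ℝ] (ℝ × ℝ)) = ContinuousLinearMap.id ℝ (ℝ × ℝ) := rfl
      rw [this]
      exact ContinuousLinearMap.nnnorm_id
    rw [this, inv_one]
    rw [← NNReal.coe_lt_coe]
    norm_num))

lemma Fh_apply (p : ℝ × ℝ) : Fh p = F p := rfl

/-- the derivative matrix of `F` -/
noncomputable def DF (p : ℝ × ℝ) : (ℝ × ℝ) →L[ℝ] (ℝ × ℝ) :=
  (Matrix.toLin (Module.Basis.finTwoProd ℝ) (Module.Basis.finTwoProd ℝ)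
    !![1 + Real.cos p.1 * Real.cos p.2 / 10, - (Real.sin p.1 * Real.sin p.2) / 10;
       Real.sin p.1 * Real.sin p.2 / 10, 1 - Real.cos p.1 * Real.cos p.2 / 10]).toContinuousLinearMap

lemma DF_apply (p v : ℝ × ℝ) : DF p v = ((1 + Real.cos p.1 * Real.cos p.2 / 10) * v.1 +
    (- (Real.sin p.1 * Real.sin p.2) / 10) * v.2,
    (Real.sin p.1 * Real.sin p.2 / 10) * v.1 + (1 - Real.cos p.1 * Real.cos p.2 / 10) * v.2) := by
  rw [DF, Matrix.toLin_finTwoProd_toContinuousLinearMap]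
  simp

lemma hasF (p : ℝ × ℝ) : HasFDerivAt F (DF p) p := by
  rw [DF, Matrix.toLin_finTwoProd_toContinuousLinearMap]
  have h1 : HasFDerivAt (fun p : ℝ × ℝ => p.1) (ContinuousLinearMap.fst ℝ ℝ ℝ) p := hasFDerivAt_fst
  have h2 : HasFDerivAt (fun p : ℝ × ℝ => p.2) (ContinuousLinearMap.snd ℝ ℝ ℝ) p := hasFDerivAt_snd
  have hs1 := h1.sin
  have hc1 := h1.cos
  have hs2 := h2.sin
  have hc2 := h2.cos
  have hA := h1.add ((hs1.mul hc2).mul_const (1/10 : ℝ))
  have hB := h2.sub ((hc1.mul hs2).mul_const (1/10 : ℝ))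
  have hAB := hA.prodMk hB
  convert! hAB using 1
  · funext q
    simp [F, div_eq_mul_inv]
  · ext <;> simp <;> ring

lemma DF_det (p : ℝ × ℝ) : (DF p).det = 1 - (Real.cos p.1 * Real.cos p.2 / 10)^2 +
    (Real.sin p.1 * Real.sin p.2 / 10)^2 := by
  rw [DF, ContinuousLinearMap.det, LinearMap.coe_toContinuousLinearMap, LinearMap.det_toLin,
    Matrix.det_fin_two]
  simp
  ring

lemma DF_det_ne (p : ℝ × ℝ) : (DF p).det ≠ 0 := by
  rw [DF_det]
  have h1 := Real.abs_cos_le_one p.1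
  have h2 := Real.abs_cos_le_one p.2
  have h3 : (Real.cos p.1 * Real.cos p.2)^2 ≤ 1 := by
    rw [← sq_abs, abs_mul]
    have := mul_le_mul h1 h2 (abs_nonneg _) zero_le_one
    have h0 : 0 ≤ |Real.cos p.1| * |Real.cos p.2| := by positivity
    nlinarith
  have h4 : 0 ≤ (Real.sin p.1 * Real.sin p.2 / 10)^2 := sq_nonneg _
  have : (Real.cos p.1 * Real.cos p.2 / 10)^2 ≤ 1/100 := by
    rw [div_pow]; linarith
  linarith

lemma F_smooth : ContDiff ℝ (⊤ : ℕ∞) F := by
  unfold F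
  apply ContDiff.prodMk
  · exact contDiff_fst.add (((Real.contDiff_sin.comp contDiff_fst).mul
      (Real.contDiff_cos.comp contDiff_snd)).div_const _)
  · exact contDiff_snd.sub (((Real.contDiff_cos.comp contDiff_fst).mul
      (Real.contDiff_sin.comp contDiff_snd)).div_const _)

lemma Fsymm_smooth : ContDiff ℝ (⊤ : ℕ∞) Fh.symm := by
  apply Fh.contDiff_symm (f₀' := fun p => (DF p).toContinuousLinearEquivOfDetNeZero (DF_det_ne p))
  · intro p
    exact hasF p
  · exact F_smooth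

lemma f_inj : Function.Injective f := by
  intro x y h
  obtain ⟨p, rfl⟩ := cover_surj x
  obtain ⟨q, rfl⟩ := cover_surj y
  rw [← cover_F, ← cover_F] at h
  obtain ⟨m, hm⟩ := circ_eq _ _ (congrArg Prod.fst h)
  obtain ⟨n, hn⟩ := circ_eq _ _ (congrArg Prod.snd h)
  have h2 : F q = F (p.1 + m * (2 * Real.pi), p.2 + n * (2 * Real.pi)) := by
    rw [F_shift]
    exact Prod.ext hm hn
  have h3 : q = (p.1 + m * (2 * Real.pi), p.2 + n * (2 * Real.pi)) := Fh.injective h2
  subst h3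
  unfold cover
  ext1
  · simp only
    rw [← zsmul_eq_mul, AddCircle.coe_add, AddCircle.coe_zsmul, AddCircle.coe_period]
    simp
  · simp only
    rw [← zsmul_eq_mul, AddCircle.coe_add, AddCircle.coe_zsmul, AddCircle.coe_period]
    simp

lemma f_surj : Function.Surjective f := by
  intro y
  obtain ⟨q, rfl⟩ := cover_surj y
  refine ⟨cover (Fh.symm q), ?_⟩
  rw [← cover_F, ← Fh_apply, Fh.apply_symm_apply]

/-- the diffeomorphism -/
noncomputable def D : TorusDiffeo where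
  toFun := f
  invFun := (Equiv.ofBijective f ⟨f_inj, f_surj⟩).symm
  left_inv := (Equiv.ofBijective f ⟨f_inj, f_surj⟩).left_inv
  right_inv := (Equiv.ofBijective f ⟨f_inj, f_surj⟩).right_inv
  lift := F
  invLift := Fh.symm
  lift_smooth := F_smooth
  invLift_smooth := Fsymm_smooth
  lift_spec := cover_F
  invLift_spec := by
    intro p
    rw [Equiv.eq_symm_apply]
    change f (cover (Fh.symm p)) = cover p
    rw [← cover_F, ← Fh_apply, Fh.apply_symm_apply]

end Q41.EE
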