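import Pool.Agent.Q41.EE.Lyap

open MeasureTheory Filter Topology

namespace Q41.EE

/-- A bounded measurable function that decreases along the map is invariant almost everywhere. -/
lemma ae_inv (ρ : Measure Torus) [IsProbabilityMeasure ρ] (hρ : ρ.map f = ρ) (L : Torus → ℝ)
    (hL : Measurable L) (hb : ∀ x, |L x| ≤ 1) (hdec : ∀ x, L (f x) ≤ L x) :
    ∀ᵐ x ∂ρ, L (f x) = L x := by
  have hfm : Measurable f := f_cont.measurable
  have i1 : Integrable L ρ := by
    refine Integrable.of_bound hL.aestronglyMeasurable 1 (Eventually.of_forall fun x => ?_)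
    simpa using hb x
  have i2 : Integrable (fun x => L (f x)) ρ := by
    refine Integrable.of_bound (hL.comp hfm).aestronglyMeasurable 1 (Eventually.of_forall fun x => ?_)
    simpa using hb (f x)
  have e : ∫ x, L (f x) ∂ρ = ∫ x, L x ∂ρ := by
    rw [← integral_map hfm.aemeasurable hL.aestronglyMeasurable, hρ]
  have h0 : ∫ x, (L x - L (f x)) ∂ρ = 0 := by
    rw [integral_sub i1 i2, e, sub_self]
  have h1 := (integral_eq_zero_iff_of_nonneg (fun x => sub_nonneg.2 (hdec x)) (i1.sub i2)).1 h0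
  filter_upwards [h1] with x hx
  have : L x - L (f x) = 0 := hx
  linarith

lemma sC_le (x : Circ) : |sC x| ≤ 1 := by
  obtain ⟨a, rfl⟩ := QuotientAddGroup.mk_surjective x
  exact Real.abs_sin_le_one a

lemma cC_le (x : Circ) : |cC x| ≤ 1 := by
  obtain ⟨a, rfl⟩ := QuotientAddGroup.mk_surjective x
  exact Real.abs_cos_le_one a

lemma prod_le {a b : ℝ} (ha : |a| ≤ 1) (hb : |b| ≤ 1) : |a * b| ≤ 1 := by
  rw [abs_mul]
  have := mul_le_mul ha hb (abs_nonneg _) zero_le_one
  linarith

lemma step1 (ρ : Measure Torus) [IsProbabilityMeasure ρ] (hρ : ρ.map f = ρ) :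
    ∀ᵐ x ∂ρ, sC x.1 = 0 ∨ sC x.2 = 0 ∨ (cC x.1 = 0 ∧ cC x.2 = 0) := by
  have h := ae_inv ρ hρ (fun x => |sC x.1 * sC x.2|)
    (((sC_cont.comp continuous_fst).mul (sC_cont.comp continuous_snd)).abs.measurable)
    (fun x => by rw [abs_abs]; exact prod_le (sC_le _) (sC_le _)) (fun x => by
      obtain ⟨p, rfl⟩ := cover_surj x
      rw [← cover_F]
      simp only [cover, F, sC_coe]
      exact (H_decr p.1 p.2).1)
  filter_upwards [h] with x hx
  obtain ⟨p, rfl⟩ := cover_surj x
  rw [← cover_F] at hx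
  simp only [cover, F, sC_coe] at hx
  have := (H_decr p.1 p.2).2 hx
  simpa only [cover, sC_coe, cC_coe] using this

lemma sin_new_x_iff (x y : ℝ) : Real.sin (x + Real.sin x * Real.cos y / 10) = 0 ↔ Real.sin x = 0 := by
  constructor
  · intro h
    by_contra hx
    obtain ⟨A, h1, h2, _⟩ := sin_new_x x y hx
    rw [h1] at h
    rcases mul_eq_zero.1 h with h | h
    · exact hx h
    · linarith
  · intro h
    rw [h]; simpa using h

lemma sin_new_y_iff (x y : ℝ) : Real.sin (y - Real.cos x * Real.sin y / 10) = 0 ↔ Real.sin y = 0 := by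
  constructor
  · intro h
    by_contra hx
    obtain ⟨A, h1, h2, _⟩ := sin_new_y x y hx
    rw [h1] at h
    rcases mul_eq_zero.1 h with h | h
    · exact hx h
    · linarith
  · intro h
    rw [h]; simpa using h

open Classical in
lemma step2 (ρ : Measure Torus) [IsProbabilityMeasure ρ] (hρ : ρ.map f = ρ) :
    ∀ᵐ x ∂ρ, sC x.1 = 0 → sC x.2 = 0 := by
  have hm : MeasurableSet {x : Torus | sC x.1 = 0} :=
    (isClosed_singleton.preimage (sC_cont.comp continuous_fst)).measurableSet
  have h := ae_inv ρ hρ (fun x => if sC x.1 = 0 then -(cC x.1 * cC x.2) else 0)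
    (Measurable.ite hm ((cC_cont.comp continuous_fst).mul (cC_cont.comp continuous_snd)).neg.measurable
      measurable_const)
    (fun x => by
      split_ifs
      · rw [abs_neg]; exact prod_le (cC_le _) (cC_le _)
      · simp) (fun x => by
      obtain ⟨p, rfl⟩ := cover_surj x
      rw [← cover_F]
      simp only [cover, F, sC_coe, cC_coe, sin_new_x_iff]
      split_ifs with h
      · have := (vert p.1 p.2 h).1
        rw [h]
        simp only [zero_mul, zero_div, add_zero]
        linarith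
      · exact le_refl _)
  filter_upwards [h] with x hx
  obtain ⟨p, rfl⟩ := cover_surj x
  rw [← cover_F] at hx
  simp only [cover, F, sC_coe, cC_coe, sin_new_x_iff] at hx ⊢
  intro h0
  rw [if_pos h0, if_pos h0, h0] at hx
  simp only [zero_mul, zero_div, add_zero, neg_inj] at hx
  exact (vert p.1 p.2 h0).2 hx

open Classical in
lemma step3 (ρ : Measure Torus) [IsProbabilityMeasure ρ] (hρ : ρ.map f = ρ) :
    ∀ᵐ x ∂ρ, sC x.2 = 0 → sC x.1 = 0 := by
  have hm : MeasurableSet {x : Torus | sC x.2 = 0} :=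
    (isClosed_singleton.preimage (sC_cont.comp continuous_snd)).measurableSet
  have h := ae_inv ρ hρ (fun x => if sC x.2 = 0 then (cC x.1 * cC x.2) else 0)
    (Measurable.ite hm ((cC_cont.comp continuous_fst).mul (cC_cont.comp continuous_snd)).measurable
      measurable_const)
    (fun x => by
      split_ifs
      · exact prod_le (cC_le _) (cC_le _)
      · simp) (fun x => by
      obtain ⟨p, rfl⟩ := cover_surj x
      rw [← cover_F]
      simp only [cover, F, sC_coe, cC_coe, sin_new_y_iff]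
      split_ifs with h
      · have := (horiz p.1 p.2 h).1
        rw [h]
        simp only [mul_zero, zero_div, sub_zero]
        linarith
      · exact le_refl _)
  filter_upwards [h] with x hx
  obtain ⟨p, rfl⟩ := cover_surj x
  rw [← cover_F] at hx
  simp only [cover, F, sC_coe, cC_coe, sin_new_y_iff] at hx ⊢
  intro h0
  rw [if_pos h0, if_pos h0, h0] at hx
  simp only [mul_zero, zero_div, sub_zero] at hx
  exact (horiz p.1 p.2 h0).2 hx

/-- the eight fixed points -/
def Good (x : Torus) : Prop := (sC x.1 = 0 ∧ sC x.2 = 0) ∨ (cC x.1 = 0 ∧ cC x.2 = 0)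

lemma ae_good (ρ : Measure Torus) [IsProbabilityMeasure ρ] (hρ : ρ.map f = ρ) :
    ∀ᵐ x ∂ρ, Good x := by
  filter_upwards [step1 ρ hρ, step2 ρ hρ, step3 ρ hρ] with x h1 h2 h3
  rcases h1 with h | h | h
  · exact Or.inl ⟨h, h2 h⟩
  · exact Or.inl ⟨h3 h, h⟩
  · exact Or.inr h

lemma good_fix (x : Torus) (h : Good x) : f x = x := by
  rcases h with h | h
  · unfold f; rw [h.1, h.2]; simp
  · unfold f; rw [h.1, h.2]; simp

/-! ### Entropy -/

lemma negMulLog_le_one {x : ℝ} (h0 : 0 ≤ x) (h1 : x ≤ 1) : Real.negMulLog x ≤ 1 := by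
  rcases h0.eq_or_lt with h | h
  · rw [← h]; simp
  · have := Real.one_sub_inv_le_log_of_pos h
    rw [Real.negMulLog]
    have h2 : x * (1 - x⁻¹) ≤ x * Real.log x := mul_le_mul_of_nonneg_left this h0
    have h3 : x * (1 - x⁻¹) = x - 1 := by field_simp
    linarith

lemma joinEntropy_le (ρ : Measure Torus) [IsProbabilityMeasure ρ] (hfix : ∀ᵐ x ∂ρ, f x = x) {k : ℕ}
    (ξ : Torus → Fin k) (n : ℕ) (hn : 0 < n) : joinEntropy f ρ ξ n ≤ k := by
  classical
  have hset : ∀ w : Fin n → Fin k, ρ.real {x | ∀ i : Fin n, ξ (f^[(i : ℕ)] x) = w i} =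
      ρ.real {x | ∀ i : Fin n, ξ x = w i} := by
    intro w
    apply measureReal_congr
    filter_upwards [hfix] with x hx
    have : ∀ i : ℕ, f^[i] x = x := fun i => Function.iterate_fixed hx i
    apply propext
    change (∀ i : Fin n, ξ (f^[(i : ℕ)] x) = w i) ↔ (∀ i : Fin n, ξ x = w i)
    simp only [this]
  unfold joinEntropy
  simp only [hset]
  set g : (Fin n → Fin k) → ℝ := fun w => Real.negMulLog (ρ.real {x | ∀ i : Fin n, ξ x = w i}) with hg
  have hzero : ∀ w, w ∉ Finset.univ.image (fun (j : Fin k) (_ : Fin n) => j) → g w = 0 := by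
    intro w hw
    have : {x : Torus | ∀ i : Fin n, ξ x = w i} = ∅ := by
      ext x
      refine ⟨fun hx => ?_, fun hx => absurd hx (Set.notMem_empty x)⟩
      exfalso
      apply hw
      rw [Finset.mem_image]
      exact ⟨ξ x, Finset.mem_univ _, funext fun i => hx i⟩
    simp only [hg, this]
    simp
  rw [← Finset.sum_subset (Finset.subset_univ (Finset.univ.image (fun (j : Fin k) (_ : Fin n) => j)))
    (fun w _ hw => hzero w hw)]
  have h1 : ∀ w ∈ Finset.univ.image (fun (j : Fin k) (_ : Fin n) => j), g w ≤ 1 := fun w _ =>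
    negMulLog_le_one measureReal_nonneg measureReal_le_one
  refine (Finset.sum_le_card_nsmul _ _ _ h1).trans ?_
  rw [nsmul_eq_mul, mul_one]
  have := Finset.card_image_le (s := (Finset.univ : Finset (Fin k))) (f := fun (j : Fin k) (_ : Fin n) => j)
  rw [Finset.card_univ, Fintype.card_fin] at this
  exact_mod_cast this

lemma ksEntropy_zero (ρ : Measure Torus) [IsProbabilityMeasure ρ] (hfix : ∀ᵐ x ∂ρ, f x = x) :
    ksEntropy f ρ = 0 := by
  unfold ksEntropy
  simp only [ENNReal.iSup_eq_zero]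
  intro k ξ _
  have h1 : Tendsto (fun n : ℕ => ENNReal.ofReal ((k : ℝ) / n)) atTop (𝓝 0) := by
    have := tendsto_const_div_atTop_nhds_zero_nat (k : ℝ)
    have h2 := ENNReal.tendsto_ofReal this
    simpa using h2
  have h2 : limsup (fun n : ℕ => ENNReal.ofReal (joinEntropy f ρ ξ n / n)) atTop ≤
      limsup (fun n : ℕ => ENNReal.ofReal ((k : ℝ) / n)) atTop := by
    refine limsup_le_limsup ?_ (by isBoundedDefault) (by isBoundedDefault)
    filter_upwards [eventually_gt_atTop 0] with n hn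
    apply ENNReal.ofReal_le_ofReal
    exact div_le_div_of_nonneg_right (joinEntropy_le ρ hfix ξ n hn) (Nat.cast_nonneg n)
  rw [h1.limsup_eq] at h2
  exact le_antisymm h2 bot_le

/-! ### Exponents -/

lemma pow_apply_eig (A : (ℝ × ℝ) →L[ℝ] (ℝ × ℝ)) (v : ℝ × ℝ) (c : ℝ) (h : A v = c • v) (n : ℕ) :
    (A ^ n) v = c ^ n • v := by
  induction n with
  | zero => simp
  | succ n ih =>
    rw [pow_succ', mul_apply_eq_comp, ih, map_smul, h, smul_smul, pow_succ]

lemma extNorm_ge (p : ℝ × ℝ) (h : (Real.sin p.1 = 0 ∧ Real.sin p.2 = 0) ∨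
    (Real.cos p.1 = 0 ∧ Real.cos p.2 = 0)) (n : ℕ) :
    (1 + 1/100 : ℝ)^n ≤ extNorm ((DF p)^n) := by
  rcases h with ⟨h1, h2⟩ | ⟨h1, h2⟩
  · have hnorm : (1 + 1/10 : ℝ)^n ≤ ‖(DF p)^n‖ := by
      have c1 : Real.cos p.1 * Real.cos p.2 = 1 ∨ Real.cos p.1 * Real.cos p.2 = -1 := by
        rcases Real.sin_eq_zero_iff_cos_eq.1 h1 with a | a <;>
        rcases Real.sin_eq_zero_iff_cos_eq.1 h2 with b | b <;> simp [a, b]
      have hv : ∃ v : ℝ × ℝ, ‖v‖ = 1 ∧ DF p v = (1 + 1/10 : ℝ) • v := by
        rcases c1 with c | c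
        · refine ⟨(1, 0), by simp [Prod.norm_def], ?_⟩
          rw [DF_apply, c, h1, h2]
          ext <;> simp
        · refine ⟨(0, 1), by simp [Prod.norm_def], ?_⟩
          rw [DF_apply, c, h1, h2]
          ext <;> simp
          norm_num
      obtain ⟨v, hv1, hv2⟩ := hv
      have h3 := ((DF p)^n).le_opNorm v
      rw [pow_apply_eig _ _ _ hv2, norm_smul, hv1, mul_one, mul_one, norm_pow] at h3
      have h4 : ‖(1 + 1/10 : ℝ)‖ = 1 + 1/10 := by norm_num
      rwa [h4] at h3
    have h5 : (1 + 1/100 : ℝ)^n ≤ (1 + 1/10 : ℝ)^n := pow_le_pow_left₀ (by norm_num) (by norm_num) n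
    exact (h5.trans hnorm).trans ((le_max_left _ _).trans (le_max_right _ _))
  · have hdet : (DF p).det = 1 + 1/100 := by
      rw [DF_det, h1, h2]
      have a : Real.sin p.1 ^ 2 = 1 := by
        have := sq_add_one p.1
        rw [h1] at this; linarith
      have b : Real.sin p.2 ^ 2 = 1 := by
        have := sq_add_one p.2
        rw [h2] at this; linarith
      rw [div_pow, div_pow, mul_pow, mul_pow, a, b]
      norm_num
    have hdet2 : ((DF p)^n).det = (1 + 1/100)^n := by
      rw [← hdet]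
      simp only [ContinuousLinearMap.det, ContinuousLinearMap.toLinearMap_pow, map_pow]
    have h6 : |((DF p)^n).det| = (1 + 1/100)^n := by
      rw [hdet2]; exact abs_of_pos (by positivity)
    unfold extNorm
    rw [h6]
    exact (le_max_right _ _).trans (le_max_right _ _)

lemma chiPlus_ge (x : Torus) (hx : Good x) : ENNReal.ofReal (Real.log (1 + 1/100)) ≤ chiPlus D x := by
  set p : ℝ × ℝ := (Quotient.out x.1, Quotient.out x.2) with hp
  have hc : cover p = x := by
    unfold cover
    ext1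
    · exact Quotient.out_eq x.1
    · exact Quotient.out_eq x.2
  have h : (Real.sin p.1 = 0 ∧ Real.sin p.2 = 0) ∨ (Real.cos p.1 = 0 ∧ Real.cos p.2 = 0) := by
    rw [← hc] at hx
    simpa [Good, cover] using hx
  have hfix : F p = p := by
    rcases h with ⟨a, b⟩ | ⟨a, b⟩
    · simp [F, a, b]
    · simp [F, a, b]
  have hder : ∀ n : ℕ, fderiv ℝ (D.lift^[n]) p = (DF p)^n := fun n =>
    ((hasF p).iterate hfix n).fderiv
  unfold chiPlus
  rw [← hp]
  simp only [hder]
  apply le_limsup_of_frequently_le'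
  apply Eventually.frequently
  filter_upwards [eventually_gt_atTop 0] with n hn
  apply ENNReal.ofReal_le_ofReal
  have hn' : (0 : ℝ) < n := by exact_mod_cast hn
  rw [le_div_iff₀ hn', mul_comm, ← Real.log_pow]
  exact Real.log_le_log (by positivity) (extNorm_ge p h n)

theorem main : ∃ D : TorusDiffeo, ∀ ρ : Measure Torus, IsProbabilityMeasure ρ →
    ρ.map D.toFun = ρ → ksEntropy D.toFun ρ < ∫⁻ x, chiPlus D x ∂ρ := by
  refine ⟨D, fun ρ hρ hinv => ?_⟩
  have hinv' : ρ.map f = ρ := hinv
  have hgood := ae_good ρ hinv'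
  have hks : ksEntropy D.toFun ρ = 0 := ksEntropy_zero ρ (by
    filter_upwards [hgood] with x hx
    exact good_fix x hx)
  rw [hks]
  have h1 : ∫⁻ _x, ENNReal.ofReal (Real.log (1 + 1/100)) ∂ρ ≤ ∫⁻ x, chiPlus D x ∂ρ := by
    apply lintegral_mono_ae
    filter_upwards [hgood] with x hx
    exact chiPlus_ge x hx
  refine lt_of_lt_of_le ?_ h1
  rw [lintegral_const, measure_univ, mul_one, ENNReal.ofReal_pos]
  exact Real.log_pos (by norm_num)

end Q41.EE
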